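import Pool.Agent.Lib_helper73.SCL.TOP

/-!
# The stable core can have a measurable limit of measurable cardinals

If `κ` is a measurable cardinal which is a limit of measurable cardinals, then there is an inner
model `V` of ZFC such that in the stable core `K = L[S]` of `V` the cardinal `κ` is measurable and a
limit of measurable cardinals. (The model `V` is `L[U_i : i ≤ κ]` for a sequence of normal measures
`U_i`, `i ≤ κ`, on an increasing sequence of measurable cardinals, and `K = V`.)

The proof: the measures are iterated linearly along all ordinals, by a definable script which at
step `s` uses the measure with index `bl s`, where `bl s` is the number of limits of limits of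
stable cardinals up to `s`. Stable cardinals `α` (for the full level `m` of the script) are fixed
points of the iteration, at which the top measure is used. Hence the iterate is definable from the
stability predicate: the image of the measure `U_i` is generated by the tail filter on the
corresponding block of stable cardinals. So the iterate belongs to every inner model `N` which is
closed under `x ↦ S ∩ x`, and then `N` contains `V`, since the embedding is definable in `N` by
its fixed points.
-/

namespace Pool.Agent.Results.MP_80bdc1_lc.StableCoreMeasurableLimit

open Pool.Agent.SC

theorem result (κ : Cardinal.{0}) (hκ : Meas κ) (hlim : ∀ μ < κ, ∃ ν < κ, μ < ν ∧ Meas ν) :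
    ∃ V : Set ZFSet.{0}, Inner V ∧ ∃ K, IsStableCore V K ∧ MeasIn K κ.ord ∧
      ∀ ξ < κ.ord, ∃ μ < κ.ord, ξ < μ ∧ MeasIn K μ :=
  main κ hκ hlim

end Pool.Agent.Results.MP_80bdc1_lc.StableCoreMeasurableLimit
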